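import Pool.Agent.N743.SS.PiE
import Pool.Agent.R473.JC.Pairs

/-!
# The numbers `π + c e^s`: joint measures with `π e^r`, with each other and with the Mills ratio
-/

set_option autoImplicit false

namespace Pool.Agent.L5helper14.PiF

open Polynomial
open Pool.Agent.R352.T Pool.Agent.TH456.TM Pool.Agent.N743.SS
open Pool.Agent.R356 (JointR)
open Pool.Agent.R473.JC

/-- roots of `e` -/
lemma measT_w (q : ℕ) (hq : 1 ≤ q) : MeasT ((Real.exp (1 / q) : ℝ) : ℂ) := by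
  have hq0 : (q : ℚ) ≠ 0 := by positivity
  have h2 := measT_rpow (Real.exp 1) (Real.exp_pos 1) measT_e (1 / (q : ℚ)) (by positivity)
  rw [Real.exp_one_rpow] at h2
  push_cast at h2
  push_cast
  exact h2

lemma w_pow (q : ℕ) (i : ℕ) : Real.exp (1 / q) ^ i = Real.exp ((i : ℝ) / q) := by
  rw [← Real.exp_nat_mul]
  congr 1
  ring

/-- a trinomial relation -/
lemma alg_tri (u v w : ℝ) (a b d : ℝ) (ha : a ∈ Algebra.adjoin ℤ ({u, v} : Set ℝ))
    (hb : b ∈ Algebra.adjoin ℤ ({u, v} : Set ℝ)) (hd : d ∈ Algebra.adjoin ℤ ({u, v} : Set ℝ))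
    (i j k m : ℕ) (h : a * w ^ i - b * w ^ j - d * w ^ k = 0)
    (hne : (if m = i then a else 0) - (if m = j then b else 0) - (if m = k then d else 0) ≠ 0) :
    IsAlgebraic (Algebra.adjoin ℤ ({u, v} : Set ℝ)) w := by
  refine ⟨C (⟨a, ha⟩ : Algebra.adjoin ℤ ({u, v} : Set ℝ)) * X ^ i - C ⟨b, hb⟩ * X ^ j - C ⟨d, hd⟩ * X ^ k,
    ?_, ?_⟩
  · intro h0
    have h1 := congrArg (fun p => p.coeff m) h0
    simp only [coeff_sub, coeff_C_mul, coeff_X_pow, coeff_zero] at h1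
    apply hne
    have h2 : ((((⟨a, ha⟩ : Algebra.adjoin ℤ ({u, v} : Set ℝ)) * (if m = i then 1 else 0) -
        ⟨b, hb⟩ * (if m = j then 1 else 0) - ⟨d, hd⟩ * (if m = k then 1 else 0) :
        Algebra.adjoin ℤ ({u, v} : Set ℝ))) : ℝ) = 0 := by rw [h1]; rfl
    refine Eq.trans ?_ h2
    simp only [mul_ite, mul_one, mul_zero]
    split_ifs <;> rfl
  · simp only [map_sub, map_mul, aeval_C, map_pow, aeval_X]
    exact h

lemma den_two (c c' : ℚ) : ∃ (d : ℕ) (n n' : ℤ), 1 ≤ d ∧ (n : ℝ) / d = c ∧ (n' : ℝ) / d = c' := by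
  obtain ⟨d, hd⟩ : ∃ d, d = c.den * c'.den := ⟨_, rfl⟩
  have hd1 : 1 ≤ d := by
    rw [hd]; exact Nat.one_le_iff_ne_zero.2 (Nat.mul_ne_zero c.den_ne_zero c'.den_ne_zero)
  obtain ⟨n, hn⟩ := int_of_den c d (by rw [hd]; exact dvd_mul_right _ _) hd1
  obtain ⟨n', hn'⟩ := int_of_den c' d (by rw [hd]; exact dvd_mul_left _ _) hd1
  exact ⟨d, n, n', hd1, hn, hn'⟩

/-- `π + c e^s` and `π + c' e^s'` -/
theorem alg_sum_sum (t : ℝ) (c s c' s' : ℚ) (hc : c ≠ 0) (hs : s ≠ 0) (hs' : s' ≠ 0)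
    (hne : ¬ (c = c' ∧ s = s')) : ∃ q : ℕ, 1 ≤ q ∧
    IsAlgebraic (Algebra.adjoin ℤ ({t + c * Real.exp s, t + c' * Real.exp s'} : Set ℝ)) (Real.exp (1 / q)) := by
  obtain ⟨q, S, S', hq, hS, hS'⟩ := den_two s s'
  obtain ⟨d, n, n', hd, hn, hn'⟩ := den_two c c'
  have hq0 : (q : ℝ) ≠ 0 := by positivity
  have hd0 : (d : ℝ) ≠ 0 := by positivity
  refine ⟨q, hq, ?_⟩
  obtain ⟨N, hN⟩ : ∃ N : ℕ, N = S.natAbs + S'.natAbs := ⟨_, rfl⟩
  obtain ⟨A, hA⟩ : ∃ A : ℕ, (A : ℤ) = S + N := ⟨(S + N).toNat, by omega⟩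
  obtain ⟨B, hB⟩ : ∃ B : ℕ, (B : ℤ) = S' + N := ⟨(S' + N).toNat, by omega⟩
  have hS0 : S ≠ 0 := by
    rintro rfl
    apply hs
    have : ((s : ℚ) : ℝ) = 0 := by rw [← hS]; simp
    exact_mod_cast this
  have hS0' : S' ≠ 0 := by
    rintro rfl
    apply hs'
    have : ((s' : ℚ) : ℝ) = 0 := by rw [← hS']; simp
    exact_mod_cast this
  obtain ⟨u, hu⟩ : ∃ u, u = t + c * Real.exp s := ⟨_, rfl⟩
  obtain ⟨v, hv⟩ : ∃ v, v = t + c' * Real.exp s' := ⟨_, rfl⟩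
  rw [← hu, ← hv]
  have hn0 : (n : ℝ) ≠ 0 := by
    intro h0
    apply hc
    have : ((c : ℚ) : ℝ) = 0 := by rw [← hn, h0]; simp
    exact_mod_cast this
  refine alg_tri u v _ (n : ℝ) (n' : ℝ) ((d : ℝ) * (u - v)) (intCast_mem _ n) (intCast_mem _ n')
    (mul_mem (natCast_mem _ d) (sub_mem (mem_u u v) (mem_v u v))) A B N A ?_ ?_
  · have e1 : Real.exp (1 / q) ^ A = Real.exp s * Real.exp (1 / q) ^ N := by
      rw [w_pow, w_pow, ← hS, ← Real.exp_add]
      congr 1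
      have : (A : ℝ) = S + N := by exact_mod_cast hA
      rw [this]
      ring
    have e2 : Real.exp (1 / q) ^ B = Real.exp s' * Real.exp (1 / q) ^ N := by
      rw [w_pow, w_pow, ← hS', ← Real.exp_add]
      congr 1
      have : (B : ℝ) = S' + N := by exact_mod_cast hB
      rw [this]
      ring
    have e3 : (n : ℝ) = c * d := by rw [← hn]; field_simp
    have e4 : (n' : ℝ) = c' * d := by rw [← hn']; field_simp
    rw [e1, e2, e3, e4, hu, hv]
    ring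
  · rw [if_pos rfl, if_neg (show ¬ A = N by omega), sub_zero]
    split_ifs with h
    · intro h0
      apply hne
      have h1 : S = S' := by omega
      constructor
      · have : (c : ℝ) = c' := by
          rw [← hn, ← hn']
          congr 1
          linarith
        exact_mod_cast this
      · have : (s : ℝ) = s' := by rw [← hS, ← hS', h1]
        exact_mod_cast this
    · rw [sub_zero]
      exact hn0

theorem joint_sum_sum (t : ℝ) (c s c' s' : ℚ) (hc : c ≠ 0) (hs : s ≠ 0) (hs' : s' ≠ 0)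
    (hne : ¬ (c = c' ∧ s = s')) : JointR (t + c * Real.exp s) (t + c' * Real.exp s') := by
  obtain ⟨q, hq, h⟩ := alg_sum_sum t c s c' s' hc hs hs' hne
  exact jointR_of_alg (Real.exp (1 / q)) (measT_w q hq) _ _ h

/-- `t e^r` and `t e^r'` -/
theorem alg_prod_prod (t : ℝ) (ht : t ≠ 0) (r r' : ℚ) (hr : r ≠ r') : ∃ q : ℕ, 1 ≤ q ∧
    IsAlgebraic (Algebra.adjoin ℤ ({Real.exp r * t, Real.exp r' * t} : Set ℝ)) (Real.exp (1 / q)) := by
  obtain ⟨q, R, R', hq, hR, hR'⟩ := den_two r r'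
  have hq0 : (q : ℝ) ≠ 0 := by positivity
  refine ⟨q, hq, ?_⟩
  obtain ⟨N, hN⟩ : ∃ N : ℕ, N = R.natAbs + R'.natAbs := ⟨_, rfl⟩
  obtain ⟨A, hA⟩ : ∃ A : ℕ, (A : ℤ) = R + N := ⟨(R + N).toNat, by omega⟩
  obtain ⟨B, hB⟩ : ∃ B : ℕ, (B : ℤ) = R' + N := ⟨(R' + N).toNat, by omega⟩
  have hRR : R ≠ R' := by
    rintro rfl
    apply hr
    have : ((r : ℚ) : ℝ) = r' := by rw [← hR, ← hR']
    exact_mod_cast this
  obtain ⟨u, hu⟩ : ∃ u, u = Real.exp r * t := ⟨_, rfl⟩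
  obtain ⟨v, hv⟩ : ∃ v, v = Real.exp r' * t := ⟨_, rfl⟩
  have hu0 : u ≠ 0 := by rw [hu]; exact mul_ne_zero (Real.exp_pos _).ne' ht
  rw [← hu, ← hv]
  refine alg_tri u v _ u v 0 (mem_u u v) (mem_v u v) (zero_mem _) B A 0 B ?_ ?_
  · have e1 : Real.exp (1 / q) ^ A = Real.exp r * Real.exp (1 / q) ^ N := by
      rw [w_pow, w_pow, ← hR, ← Real.exp_add]
      congr 1
      have : (A : ℝ) = R + N := by exact_mod_cast hA
      rw [this]
      ring
    have e2 : Real.exp (1 / q) ^ B = Real.exp r' * Real.exp (1 / q) ^ N := by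
      rw [w_pow, w_pow, ← hR', ← Real.exp_add]
      congr 1
      have : (B : ℝ) = R' + N := by exact_mod_cast hB
      rw [this]
      ring
    rw [e1, e2, hu, hv]
    ring
  · rw [if_pos rfl, if_neg (show ¬ B = A by omega)]
    simpa using hu0

/-- `t e^r` and `t + c e^s` -/
theorem alg_prod_sum (t : ℝ) (ht : 0 < t) (r c s : ℚ) (hc : 0 < c) (hs : s ≠ 0) : ∃ q : ℕ, 1 ≤ q ∧
    IsAlgebraic (Algebra.adjoin ℤ ({Real.exp r * t, t + c * Real.exp s} : Set ℝ)) (Real.exp (1 / q)) := by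
  obtain ⟨q, R, S, hq, hR, hS⟩ := den_two r s
  obtain ⟨d, n, -, hd, hn, -⟩ := den_two c c
  have hq0 : (q : ℝ) ≠ 0 := by positivity
  have hd0 : (0 : ℝ) < d := by positivity
  refine ⟨q, hq, ?_⟩
  obtain ⟨N, hN⟩ : ∃ N : ℕ, N = S.natAbs + R.natAbs := ⟨_, rfl⟩
  obtain ⟨A, hA⟩ : ∃ A : ℕ, (A : ℤ) = R + N := ⟨(R + N).toNat, by omega⟩
  obtain ⟨B, hB⟩ : ∃ B : ℕ, (B : ℤ) = S + R + N := ⟨(S + R + N).toNat, by omega⟩
  have hS0 : S ≠ 0 := by
    rintro rfl
    apply hs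
    have : ((s : ℚ) : ℝ) = 0 := by rw [← hS]; simp
    exact_mod_cast this
  obtain ⟨u, hu⟩ : ∃ u, u = Real.exp r * t := ⟨_, rfl⟩
  obtain ⟨v, hv⟩ : ∃ v, v = t + c * Real.exp s := ⟨_, rfl⟩
  have hu0 : 0 < u := by rw [hu]; positivity
  rw [← hu, ← hv]
  have e3 : (n : ℝ) = c * d := by rw [← hn]; field_simp
  have hn0 : 0 < (n : ℝ) := by
    rw [e3]
    have : (0 : ℝ) < c := by exact_mod_cast hc
    positivity
  refine alg_tri u v _ ((d : ℝ) * v) (n : ℝ) ((d : ℝ) * u) (mul_mem (natCast_mem _ d) (mem_v u v))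
    (intCast_mem _ n) (mul_mem (natCast_mem _ d) (mem_u u v)) A B N B ?_ ?_
  · have e1 : Real.exp (1 / q) ^ A = Real.exp r * Real.exp (1 / q) ^ N := by
      rw [w_pow, w_pow, ← hR, ← Real.exp_add]
      congr 1
      have : (A : ℝ) = R + N := by exact_mod_cast hA
      rw [this]
      ring
    have e2 : Real.exp (1 / q) ^ B = Real.exp s * Real.exp r * Real.exp (1 / q) ^ N := by
      rw [w_pow, w_pow, ← hS, ← hR, ← Real.exp_add, ← Real.exp_add]
      congr 1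
      have : (B : ℝ) = S + R + N := by exact_mod_cast hB
      rw [this]
      ring
    rw [e1, e2, e3, hu, hv]
    ring
  · rw [if_neg (show ¬ B = A by omega), if_pos rfl]
    split_ifs with h
    · have : 0 < (d : ℝ) * u := by positivity
      intro h0
      linarith
    · intro h0
      linarith

theorem joint_prod_sum (t : ℝ) (ht : 0 < t) (r c s : ℚ) (hc : 0 < c) (hs : s ≠ 0) :
    JointR (Real.exp r * t) (t + c * Real.exp s) := by
  obtain ⟨q, hq, h⟩ := alg_prod_sum t ht r c s hc hs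
  exact jointR_of_alg (Real.exp (1 / q)) (measT_w q hq) _ _ h

/-- `π + c e^s` and `e^s' R(x)` -/
theorem joint_sum_mil (c s s' x : ℚ) (hx : 0 < x) :
    JointR (Real.pi + c * Real.exp s) (Real.exp s' * mil x) := by
  obtain ⟨q, hq⟩ : ∃ q, q = 2 * (x.den * (s.den * s'.den)) := ⟨_, rfl⟩
  have hq1 : 1 ≤ q := by
    rw [hq]
    exact Nat.one_le_iff_ne_zero.2 (Nat.mul_ne_zero (by norm_num)
      (Nat.mul_ne_zero x.den_ne_zero (Nat.mul_ne_zero s.den_ne_zero s'.den_ne_zero)))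
  have hq0 : (q : ℝ) ≠ 0 := by positivity
  obtain ⟨d, n, -, hd, hn, -⟩ := den_two c c
  obtain ⟨m, hm1, hm⟩ := nat_of_den x hx q (by rw [hq]; exact (dvd_mul_right _ _).mul_left _) hq1
  obtain ⟨S, hS⟩ := int_of_den s q (by
    rw [hq]; exact ((dvd_mul_right s.den s'.den).mul_left _).mul_left _) hq1
  obtain ⟨S', hS'⟩ := int_of_den s' q (by
    rw [hq]; exact ((dvd_mul_left s'.den s.den).mul_left _).mul_left _) hq1
  obtain ⟨h, hh⟩ : ∃ h, h = x.den * (s.den * s'.den) := ⟨_, rfl⟩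
  have hq2 : q = 2 * h := by rw [hq, hh]
  have hmeas := measM_EA 1 1 (fun _ => m) (fun _ => h) (fun _ _ _ _ => Subsingleton.elim _ _) (fun _ => hm1) hq1
    (fun _ => by omega)
  obtain ⟨y, hy⟩ : ∃ y : Option (Fin 1 × Fin 1) → ℝ, y = (fun o : Option (Fin 1 × Fin 1) =>
      o.elim (Real.exp (-1 / q)) (fun p => EA ((h : ℝ) / q) (p.1 + 1) ((m : ℝ) / q))) := ⟨_, rfl⟩
  rw [← hy] at hmeas
  obtain ⟨o, ho⟩ : ∃ o : Option (Fin 1 × Fin 1), o = some (0, 0) := ⟨_, rfl⟩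
  have hone : o ≠ none := by rw [ho]; exact Option.some_ne_none _
  have hhalf : (h : ℝ) / q = 1 / 2 := by
    rw [hq2]
    push_cast
    have : (h : ℝ) ≠ 0 := by
      have : h ≠ 0 := by omega
      exact_mod_cast this
    field_simp
  have hyo : y o = EA (1 / 2) 1 x := by
    rw [hy, ho, ← hm, ← hhalf]
    simp
  have hyn : y none = Real.exp (-1 / q) := by rw [hy]; rfl
  obtain ⟨N, hN⟩ : ∃ N : ℕ, N = S.natAbs + S'.natAbs := ⟨_, rfl⟩
  obtain ⟨A, hA⟩ : ∃ A : ℕ, (A : ℤ) = 2 * N - S := ⟨(2 * N - S).toNat, by omega⟩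
  obtain ⟨B, hB⟩ : ∃ B : ℕ, (B : ℤ) = N + m + S' := ⟨(N + m + S').toNat, by omega⟩
  obtain ⟨E, hE⟩ : ∃ E : ℝ, E = EA (1 / 2) 1 x := ⟨_, rfl⟩
  have hx' : (0 : ℝ) < x := by exact_mod_cast hx
  have hrel := mil_rel hx'
  rw [← hE] at hrel hyo
  -- the polynomial
  obtain ⟨F, hF⟩ : ∃ F : Polynomial (Polynomial (MvPolynomial (Option (Fin 1 × Fin 1)) ℤ)), F =
    Polynomial.C (Polynomial.C (MvPolynomial.C ((m * q * d : ℕ) : ℤ) * MvPolynomial.X none ^ (2 * N))) * Polynomial.X -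
      Polynomial.C (Polynomial.C (MvPolynomial.C (((m * q : ℕ) : ℤ) * n) * MvPolynomial.X none ^ A)) -
      Polynomial.C (Polynomial.C (MvPolynomial.C ((d : ℕ) : ℤ))) *
      (Polynomial.C (Polynomial.C (MvPolynomial.C (m : ℤ) * (2 - MvPolynomial.X o) * MvPolynomial.X none ^ N)) +
        Polynomial.C (Polynomial.C (MvPolynomial.C (q : ℤ) * MvPolynomial.X none ^ B) * Polynomial.X)) ^ 2 := ⟨_, rfl⟩
  have hev : ∀ (ψ : Option (Fin 1 × Fin 1) → ℂ) (α β : ℂ), e3 ψ α β F =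
      (m * q * d : ℂ) * ψ none ^ (2 * N) * α - (m * q : ℂ) * n * ψ none ^ A -
        d * ((m : ℂ) * (2 - ψ o) * ψ none ^ N + (q : ℂ) * ψ none ^ B * β) ^ 2 := by
    intro ψ α β
    rw [hF]
    simp only [e3_sub, e3_add, e3_mul, e3_pow, Polynomial.C_mul (a := Polynomial.C _), e3_CC, e3_CX, e3_X]
    simp only [map_sub, map_mul, map_pow, map_ofNat, MvPolynomial.aeval_X, eq_intCast,
      Nat.cast_mul, map_natCast, map_intCast]
  refine jointR_rel y hmeas _ _ F ?_ ?_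
  · rw [hev]
    simp only [hyn, hyo]
    have e0 : Real.exp (-1 / q) ^ A = Real.exp (-(N : ℝ) / q) ^ 2 * Real.exp s := by
      rw [W_pow, ← Real.exp_nat_mul, ← hS, ← Real.exp_add]
      congr 1
      have : (A : ℝ) = 2 * N - S := by exact_mod_cast hA
      rw [this]
      push_cast
      field_simp
      ring
    have e0' : Real.exp (-1 / q) ^ (2 * N) = Real.exp (-(N : ℝ) / q) ^ 2 := by
      rw [mul_comm, pow_mul, W_pow]
    have e1 : Real.exp (-1 / q) ^ N = Real.exp (-(N : ℝ) / q) := W_pow q N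
    have e2 : Real.exp (-1 / q) ^ B * Real.exp s' = Real.exp (-(N : ℝ) / q) * Real.exp (-x) := by
      rw [W_pow, ← Real.exp_add, ← Real.exp_add, ← hS', ← hm]
      congr 1
      have : (B : ℝ) = N + m + S' := by exact_mod_cast hB
      rw [this]
      field_simp
      ring
    have e3 : (m : ℝ) = x * q := by rw [← hm]; field_simp
    have e4 : (n : ℝ) = c * d := by
      have : (d : ℝ) ≠ 0 := by positivity
      rw [← hn]; field_simp
    have key : (m * q * d : ℝ) * Real.exp (-1 / q) ^ (2 * N) * (Real.pi + c * Real.exp s) -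
        (m * q : ℝ) * n * Real.exp (-1 / q) ^ A -
        d * ((m : ℝ) * (2 - E) * Real.exp (-1 / q) ^ N + (q : ℝ) * Real.exp (-1 / q) ^ B * (Real.exp s' * mil x)) ^ 2
        = 0 := by
      have f2 : (q : ℝ) * Real.exp (-1 / q) ^ B * (Real.exp s' * mil x) =
          (q : ℝ) * (Real.exp (-1 / q) ^ B * Real.exp s') * mil x := by ring
      rw [f2, e0, e0', e1, e2, e3, e4]
      linear_combination (d : ℝ) * (q : ℝ) ^ 2 * Real.exp (-(N : ℝ) / q) ^ 2 * hrel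
    exact_mod_cast congrArg (fun z : ℝ => (z : ℂ)) key
  · intro α β _ _
    have hm0 : (m : ℂ) ≠ 0 := by exact_mod_cast (by omega : m ≠ 0)
    have hq0' : (q : ℂ) ≠ 0 := by exact_mod_cast (by omega : q ≠ 0)
    have hd0' : (d : ℂ) ≠ 0 := by exact_mod_cast (by omega : d ≠ 0)
    obtain ⟨t, ht⟩ : ∃ t : ℂ, (m * q * d : ℂ) * α - (m * q : ℂ) * n - d * t ^ 2 ≠ 0 := by
      by_cases h0 : (m * q * d : ℂ) * α - (m * q : ℂ) * n = 0
      · exact ⟨1, by rw [h0]; simp [hd0']⟩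
      · exact ⟨0, by simpa using h0⟩
    refine ⟨fun o' => if o' = none then 1 else 2 - (t - q * β) / m, ?_⟩
    rw [hev]
    simp only [if_true, if_neg hone, one_pow, mul_one]
    have e4 : (m : ℂ) * (2 - (2 - (t - q * β) / m)) + q * β = t := by field_simp; ring
    rw [e4]
    exact ht

end Pool.Agent.L5helper14.PiF
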