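import Pool.Agent.L5helper14.PiF.Trdeg
import Pool.Agent.N743.SS.PiK

/-!
# The numbers `π e^r`, `π + c e^s`, `√(π x) e^s erfc(√x)`
-/

set_option autoImplicit false

namespace Pool.Agent.L5helper14.PiF

open Polynomial MeasureTheory Set
open Pool.Agent.R352.T Pool.Agent.N743.SS
open Pool.Agent.H327R2.SC
open Pool.Agent.R356 (JointR one_le_of_coeff)

/-- `√(π x) e^s erfc(√x)` -/
noncomputable def err (s x : ℝ) : ℝ :=
  2 * √x * Real.exp s * ∫ t in Ioi (√x), Real.exp (-t ^ 2)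

theorem err_eq (s x : ℝ) (hx : 0 < x) : err s x = Real.exp (s - x) * mil x := by
  rw [mil_mills hx, err]
  have h1 : ∫ v in Ioi (0 : ℝ), Real.exp (-(x * (2 * v + v ^ 2))) =
      Real.exp x * ∫ v in Ioi (0 : ℝ), Real.exp (-(√x * (1 + v)) ^ 2) := by
    rw [← integral_const_mul]
    refine setIntegral_congr_fun measurableSet_Ioi fun v _ => ?_
    show Real.exp (-(x * (2 * v + v ^ 2))) = Real.exp x * Real.exp (-(√x * (1 + v)) ^ 2)
    rw [← Real.exp_add]
    congr 1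
    have : (√x * (1 + v)) ^ 2 = x * (1 + v) ^ 2 := by rw [mul_pow, Real.sq_sqrt hx.le]
    rw [this]
    ring
  have h2 := Pool.Agent.R352.E.int_shift (fun w => Real.exp (-(√x * w) ^ 2)) 1
  have h3 := integral_comp_mul_left_Ioi (fun t : ℝ => Real.exp (-t ^ 2)) 1 (Real.sqrt_pos.2 hx)
  rw [mul_one, smul_eq_mul] at h3
  rw [h1, h2, h3, Real.exp_sub]
  have h4 : √x ≠ 0 := (Real.sqrt_pos.2 hx).ne'
  have h5 : x = √x * √x := (Real.mul_self_sqrt hx.le).symm
  have h6 := Real.exp_pos x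
  obtain ⟨I, hI⟩ : ∃ I, I = ∫ t in Ioi (√x), Real.exp (-t ^ 2) := ⟨_, rfl⟩
  rw [← hI]
  have h7 : Real.exp s / Real.exp x * (2 * x * (Real.exp x * ((√x)⁻¹ * I))) =
      2 * (x * (√x)⁻¹) * Real.exp s * I * (Real.exp x / Real.exp x) := by ring
  rw [h7, div_self h6.ne', mul_one]
  congr 3
  conv_rhs => rw [h5]
  field_simp
  rw [Real.sq_sqrt hx.le]

/-- the parameters -/
inductive Par
  | prod (r : ℚ)
  | sum (c s : ℚ)
  | erf (s x : ℚ)

/-- the numbers -/
noncomputable def Par.val : Par → ℝ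
  | .prod r => Real.pi * Real.exp r
  | .sum c s => Real.pi + c * Real.exp s
  | .erf s x => err s x

/-- admissible parameters -/
def Par.Ok : Par → Prop
  | .prod _ => True
  | .sum c s => 0 < c ∧ s ≠ 0
  | .erf _ x => 0 < x

/-- the first two kinds -/
def Par.Lin : Par → Prop
  | .prod _ => True
  | .sum _ _ => True
  | .erf _ _ => False

lemma erf_val (s x : ℚ) (hx : 0 < x) : (Par.erf s x).val = Real.exp ((s - x : ℚ) : ℝ) * mil x := by
  have hx' : (0 : ℝ) < x := by exact_mod_cast hx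
  show err s x = _
  rw [err_eq _ _ hx']
  push_cast
  rfl

lemma joint_erf (s x s' x' : ℚ) (hx : 0 < x) (hx' : 0 < x') (hne : ¬ (s = s' ∧ x = x')) :
    JointR (Par.erf s x).val (Par.erf s' x').val := by
  rw [erf_val s x hx, erf_val s' x' hx']
  by_cases h : x = x'
  · subst h
    have hx0 : (0 : ℝ) < x := by exact_mod_cast hx
    refine joint_exp (mil x) (mil_pos hx0).ne' _ _ fun h1 => hne ⟨?_, rfl⟩
    linarith
  · exact joint_mil_mil _ x _ x' hx hx' h

theorem joint (p q : Par) (hp : p.Ok) (hq : q.Ok) (hpq : p ≠ q) : JointR p.val q.val := by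
  have key1 : ∀ (r c s : ℚ), 0 < c ∧ s ≠ 0 → JointR (Real.pi * Real.exp r) (Real.pi + c * Real.exp s) := by
    intro r c s h
    have := joint_prod_sum Real.pi Real.pi_pos r c s h.1 h.2
    rwa [mul_comm (Real.exp (r : ℝ))] at this
  have key2 : ∀ (r s x : ℚ), 0 < x → JointR (Real.pi * Real.exp r) (Par.erf s x).val := by
    intro r s x h
    rw [erf_val s x h]
    have := joint_pi_mil r (s - x) x h
    rwa [mul_comm (Real.exp (r : ℝ))] at this
  have key3 : ∀ (c s' s x : ℚ), 0 < x → JointR (Real.pi + c * Real.exp s') (Par.erf s x).val := by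
    intro c s' s x h
    rw [erf_val s x h]
    exact joint_sum_mil c s' (s - x) x h
  rcases p with r | ⟨c, s⟩ | ⟨s, x⟩ <;> rcases q with r' | ⟨c', s'⟩ | ⟨s', x'⟩
  · have h1 : r ≠ r' := fun h => hpq (by rw [h])
    have := joint_exp Real.pi Real.pi_ne_zero r r' h1
    rwa [mul_comm (Real.exp (r : ℝ)), mul_comm (Real.exp (r' : ℝ))] at this
  · exact key1 r c' s' hq
  · exact key2 r s' x' hq
  · exact (key1 r' c s hp).symm
  · refine joint_sum_sum Real.pi c s c' s' hp.1.ne' hp.2 hq.2 fun h => hpq ?_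
    rw [h.1, h.2]
  · exact key3 c s s' x' hq
  · exact (key2 r' s x hp).symm
  · exact (key3 c' s' s x hp).symm
  · refine joint_erf s x s' x' hp hq fun h => hpq ?_
    rw [h.1, h.2]

/-- an integer polynomial for an algebraic number -/
lemma int_poly {u : ℝ} (h : IsAlgebraic ℚ u) : ∃ P : ℤ[X], P ≠ 0 ∧ aeval u P = 0 := by
  have h1 : IsAlgebraic ℤ u := by
    rwa [IsFractionRing.isAlgebraic_iff ℤ ℚ ℝ]
  exact h1

lemma exists_height (P : ℤ[X]) : ∃ H : ℝ, 1 ≤ H ∧ ∀ k, |((P.coeff k : ℤ) : ℝ)| ≤ H := by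
  refine ⟨(Pool.Agent.TH456.TM.ht P : ℝ) + 1, by have := Nat.cast_nonneg (α := ℝ) (Pool.Agent.TH456.TM.ht P); linarith,
    fun k => (Pool.Agent.TH456.TM.le_ht P k).trans (by linarith)⟩

/-- if one of the numbers is algebraic the other one has a measure -/
theorem meas_of_alg {u v : ℝ} (h : JointR u v) (hu : IsAlgebraic ℚ u) (D : ℕ) :
    ∃ κ C : ℝ, 0 < κ ∧ 0 < C ∧ ∀ Q : ℤ[X], Q ≠ 0 → Q.natDegree ≤ D → ∀ H : ℝ,
      (∀ k, |((Q.coeff k : ℤ) : ℝ)| ≤ H) → C * H ^ (-κ) ≤ |aeval v Q| := by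
  obtain ⟨P, hP, hP0⟩ := int_poly hu
  obtain ⟨H₀, hH₀, hPH⟩ := exists_height P
  obtain ⟨κ, C, hκ, hC, hj⟩ := h (max D P.natDegree)
  refine ⟨κ, C * H₀ ^ (-κ), hκ, by positivity, fun Q hQ hQD H hQH => ?_⟩
  have hH : 1 ≤ H := one_le_of_coeff Q hQ H hQH
  have h1 := hj P Q hP hQ (le_max_right _ _) (hQD.trans (le_max_left _ _)) (H₀ * H)
    (fun k => (hPH k).trans (by nlinarith)) (fun k => (hQH k).trans (by nlinarith))
  rw [hP0, abs_zero, max_eq_right (abs_nonneg _), Real.mul_rpow (by linarith) (by linarith)] at h1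
  linarith

theorem trans_or {u v : ℝ} (h : JointR u v) : Transcendental ℚ u ∨ Transcendental ℚ v := by
  by_contra hcon
  push Not at hcon
  obtain ⟨h1, h2⟩ := hcon
  rw [Transcendental, not_not] at h1 h2
  obtain ⟨Q, hQ, hQ0⟩ := int_poly h2
  obtain ⟨H₀, hH₀, hQH⟩ := exists_height Q
  obtain ⟨κ, C, hκ, hC, hj⟩ := meas_of_alg h h1 Q.natDegree
  have h3 := hj Q hQ le_rfl H₀ hQH
  rw [hQ0, abs_zero] at h3
  have : 0 < C * H₀ ^ (-κ) := by positivity
  linarith

/-- the image in the complex numbers -/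
lemma cl_lin {S : Set ℂ} (p : Par) (hl : p.Lin) (he : ((Real.exp 1 : ℝ) : ℂ) ∈ MM.closure S)
    (hp : ((p.val : ℝ) : ℂ) ∈ MM.closure S) : ((Real.pi : ℝ) : ℂ) ∈ MM.closure S := by
  rcases p with r | ⟨c, s⟩ | ⟨s, x⟩
  · have h1 : Real.pi = (Par.prod r).val * (Real.exp r)⁻¹ := by
      show _ = Real.pi * Real.exp r * (Real.exp r)⁻¹
      rw [mul_assoc, mul_inv_cancel₀ (Real.exp_pos _).ne', mul_one]
    rw [h1, Complex.ofReal_mul, Complex.ofReal_inv]
    exact cl_mul hp (cl_inv (cl_exp he r))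
  · have h1 : Real.pi = (Par.sum c s).val - c * Real.exp s := by
      show _ = Real.pi + c * Real.exp s - c * Real.exp s
      ring
    rw [h1, Complex.ofReal_sub, Complex.ofReal_mul]
    refine cl_sub hp (cl_mul ?_ (cl_exp he s))
    have := cl_rat S c
    exact_mod_cast this
  · exact absurd hl id

lemma cl_mil {S : Set ℂ} (s x : ℚ) (hx : 0 < x) (he : ((Real.exp 1 : ℝ) : ℂ) ∈ MM.closure S)
    (hp : ((err s x : ℝ) : ℂ) ∈ MM.closure S) : ((mil x : ℝ) : ℂ) ∈ MM.closure S := by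
  have h0 : err s x = Real.exp ((s - x : ℚ) : ℝ) * mil x := erf_val s x hx
  have h1 : mil x = err s x * (Real.exp ((s - x : ℚ) : ℝ))⁻¹ := by
    rw [h0, mul_comm (Real.exp _), mul_assoc, mul_inv_cancel₀ (Real.exp_pos _).ne', mul_one]
  rw [h1, Complex.ofReal_mul, Complex.ofReal_inv]
  exact cl_mul hp (cl_inv (cl_exp he _))

/-- the set of the values -/
def EV {n : ℕ} (s x : Fin n → ℚ) : Set ℂ := Set.range fun i => ((err (s i) (x i) : ℝ) : ℂ)

theorem rk_one {n : ℕ} (s x : Fin n → ℚ) (hinj : Function.Injective x) (hx : ∀ i, 0 < x i) (p : Par)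
    (hl : p.Lin) : ((n : ℕ) : ℕ∞) ≤ rk (insert ((p.val : ℝ) : ℂ) (EV s x)) := by
  obtain ⟨S, hS⟩ : ∃ S, S = insert ((p.val : ℝ) : ℂ) (EV s x) := ⟨_, rfl⟩
  rw [← hS]
  have he : ((Real.exp 1 : ℝ) : ℂ) ∈ MM.closure (insert ((Real.exp 1 : ℝ) : ℂ) S) := subset_cl _ (Set.mem_insert _ _)
  have h1 := rk_ge he (cl_lin p hl he (subset_cl _ (Set.mem_insert_of_mem _ (by rw [hS]; exact Set.mem_insert _ _)))) n x
    hx hinj (fun i => cl_mil (s i) (x i) (hx i) he (subset_cl _ (Set.mem_insert_of_mem _ (by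
      rw [hS]; exact Set.mem_insert_of_mem _ ⟨i, rfl⟩))))
  have h2 := MM.eRk_insert_le_add_one ((Real.exp 1 : ℝ) : ℂ) S
  have h3 : ((n : ℕ) : ℕ∞) + 1 ≤ rk S + 1 := by
    refine le_trans ?_ h2
    exact_mod_cast h1
  exact (ENat.add_le_add_iff_right (by norm_num)).1 h3

theorem rk_zero {n : ℕ} (s x : Fin n → ℚ) (hinj : Function.Injective x) (hx : ∀ i, 0 < x i) :
    ((n : ℕ) : ℕ∞) ≤ rk (EV s x) + 1 := by
  exact (rk_one s x hinj hx (Par.prod 0) trivial).trans (MM.eRk_insert_le_add_one _ _)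

theorem e_mem {S : Set ℂ} (p q : Par) (hl : p.Lin) (hl' : q.Lin) (hp : p.Ok) (hq : q.Ok) (hpq : p ≠ q)
    (h1 : ((p.val : ℝ) : ℂ) ∈ S) (h2 : ((q.val : ℝ) : ℂ) ∈ S) : ((Real.exp 1 : ℝ) : ℂ) ∈ MM.closure S := by
  have key : ∀ (r c s : ℚ), 0 < c ∧ s ≠ 0 → (((Real.pi * Real.exp r : ℝ)) : ℂ) ∈ S →
      (((Real.pi + c * Real.exp s : ℝ)) : ℂ) ∈ S → ((Real.exp 1 : ℝ) : ℂ) ∈ MM.closure S := by
    intro r c s h h1 h2
    obtain ⟨k, hk, h3⟩ := alg_prod_sum Real.pi Real.pi_pos r c s h.1 h.2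
    rw [mul_comm (Real.exp (r : ℝ))] at h3
    exact cl_exp_one k (cl_of_real _ _ _ h1 h2 h3) hk
  rcases p with r | ⟨c, s⟩ | ⟨s, x⟩ <;> rcases q with r' | ⟨c', s'⟩ | ⟨s', x'⟩ <;>
    first | (exact absurd hl id) | (exact absurd hl' id) | skip
  · obtain ⟨k, hk, h3⟩ := alg_prod_prod Real.pi Real.pi_ne_zero r r' (fun h => hpq (by rw [h]))
    rw [mul_comm (Real.exp (r : ℝ)), mul_comm (Real.exp (r' : ℝ))] at h3
    exact cl_exp_one k (cl_of_real _ _ _ h1 h2 h3) hk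
  · exact key r c' s' hq h1 h2
  · exact key r' c s hp h2 h1
  · obtain ⟨k, hk, h3⟩ := alg_sum_sum Real.pi c s c' s' hp.1.ne' hp.2 hq.2 fun h => hpq (by rw [h.1, h.2])
    exact cl_exp_one k (cl_of_real _ _ _ h1 h2 h3) hk

theorem rk_two {n : ℕ} (s x : Fin n → ℚ) (hinj : Function.Injective x) (hx : ∀ i, 0 < x i) (p q : Par)
    (hl : p.Lin) (hl' : q.Lin) (hp : p.Ok) (hq : q.Ok) (hpq : p ≠ q) :
    ((n + 1 : ℕ) : ℕ∞) ≤ rk (insert ((p.val : ℝ) : ℂ) (insert ((q.val : ℝ) : ℂ) (EV s x))) := by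
  obtain ⟨S, hS⟩ : ∃ S, S = insert ((p.val : ℝ) : ℂ) (insert ((q.val : ℝ) : ℂ) (EV s x)) := ⟨_, rfl⟩
  rw [← hS]
  have h1 : ((p.val : ℝ) : ℂ) ∈ S := by rw [hS]; exact Set.mem_insert _ _
  have h2 : ((q.val : ℝ) : ℂ) ∈ S := by rw [hS]; exact Set.mem_insert_of_mem _ (Set.mem_insert _ _)
  have he := e_mem p q hl hl' hp hq hpq h1 h2
  refine rk_ge he (cl_lin p hl he (subset_cl _ h1)) n x hx hinj fun i => cl_mil (s i) (x i) (hx i) he (subset_cl _ ?_)
  rw [hS]
  exact Set.mem_insert_of_mem _ (Set.mem_insert_of_mem _ ⟨i, rfl⟩)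

lemma card_of_rk {S : Set ℂ} {n : ℕ} (h : (n : ℕ∞) ≤ rk S) :
    (n : Cardinal) ≤ Algebra.trdeg ℚ (IntermediateField.adjoin ℚ S) := by
  rw [← toENat_trdeg] at h
  exact Cardinal.natCast_le_toENat.1 h

/-- if one of the numbers `π e^r`, `π + c e^s` is algebraic, the values of the error function are algebraically
independent -/
theorem indep_of_alg {n : ℕ} (s x : Fin n → ℚ) (hinj : Function.Injective x) (hx : ∀ i, 0 < x i) (p : Par)
    (hl : p.Lin) (hp : IsAlgebraic ℚ p.val) : AlgebraicIndependent ℚ (fun i => err (s i) (x i)) := by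
  have h1 := rk_one s x hinj hx p hl
  have h2 : rk (insert ((p.val : ℝ) : ℂ) (EV s x)) ≤ rk (EV s x) := by
    refine rk_le_of_subset_cl ?_
    intro z hz
    rcases hz with rfl | hz
    · refine cl_of_alg _ ?_
      have := hp.algebraMap (A := ℂ)
      exact this
    · exact subset_cl _ hz
  have h3 : ((n : ℕ) : ℕ∞) ≤ rk (EV s x) := h1.trans h2
  obtain ⟨y, hy⟩ : ∃ y : Fin n → ℂ, y = fun i => ((err (s i) (x i) : ℝ) : ℂ) := ⟨_, rfl⟩
  have hE : EV s x = Set.range y := by rw [hy]; rfl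
  rw [hE] at h3
  have hfin : (Set.range y).Finite := Set.finite_range y
  have h4 : (Set.range y).encard ≤ n := by
    rw [← Set.image_univ]
    refine (Set.encard_image_le _ _).trans ?_
    rw [Set.encard_univ, ENat.card_eq_coe_fintype_card, Fintype.card_fin]
  have hind : MM.Indep (Set.range y) := (MM.isRkFinite_of_finite hfin).indep_of_encard_le_eRk (h4.trans h3)
  have hyinj : Function.Injective y := by
    have h5 : (n : ℕ∞) ≤ (Set.range y).encard := h3.trans (MM.eRk_le_encard _)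
    have h6 : (Set.range y).encard = n := le_antisymm h4 h5
    rw [← Set.image_univ] at h6
    have h7 : Set.InjOn y Set.univ := Set.finite_univ.injOn_of_encard_image_eq (by
      rw [h6, Set.encard_univ, ENat.card_eq_coe_fintype_card, Fintype.card_fin])
    exact Set.injOn_univ.1 h7
  have h8 : AlgebraicIndependent ℚ y := by
    rw [AlgebraicIndependent.matroid_indep_iff] at hind
    have hind' : AlgebraicIndependent ℚ (fun z : Set.range y => (z : ℂ)) := hind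
    exact hind'.comp (Set.rangeFactorization y) fun a b hab => hyinj (congrArg Subtype.val hab)
  rw [hy] at h8
  exact (AlgHom.algebraicIndependent_iff (Complex.ofRealAm.restrictScalars ℚ)
      (by intro a b hab; exact Complex.ofReal_injective hab)).1 h8

end Pool.Agent.L5helper14.PiF
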