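import Pool.Agent.L5helper14.PiF.Joint
import Pool.Agent.R352.T.Fam
import Pool.Agent.H327R2.SC.Mat

/-!
# Transcendence degrees of fields generated by `π e^r`, `π + c e^s` and Mills ratios
-/

set_option autoImplicit false

namespace Pool.Agent.L5helper14.PiF

open Pool.Agent.R352.T Pool.Agent.N743.SS
open Pool.Agent.H327R2.SC

lemma cl_pow {S : Set ℂ} {x : ℂ} (hx : x ∈ MM.closure S) (n : ℕ) : x ^ n ∈ MM.closure S :=
  mem_cl.2 ((mem_cl.1 hx).pow n)

lemma cl_of_pow {S : Set ℂ} {x : ℂ} {n : ℕ} (hn : 0 < n) (hx : x ^ n ∈ MM.closure S) : x ∈ MM.closure S :=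
  mem_cl.2 (IsAlgebraic.of_pow hn (mem_cl.1 hx))

lemma cl_rat (S : Set ℂ) (c : ℚ) : (c : ℂ) ∈ MM.closure S := by
  refine cl_of_alg S ?_
  have := isAlgebraic_algebraMap (R := ℚ) (A := ℂ) c
  simpa using this

/-- rational powers of `e` -/
lemma cl_exp {S : Set ℂ} (h : ((Real.exp 1 : ℝ) : ℂ) ∈ MM.closure S) (r : ℚ) :
    ((Real.exp r : ℝ) : ℂ) ∈ MM.closure S := by
  refine cl_of_pow (n := r.den) r.den_pos ?_
  have h1 : Real.exp r ^ r.den = Real.exp r.num := by
    rw [← Real.exp_nat_mul]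
    congr 1
    have := Rat.den_mul_eq_num r
    exact_mod_cast this
  rw [← Complex.ofReal_pow, h1]
  have key : ∀ n : ℕ, ((Real.exp n : ℝ) : ℂ) ∈ MM.closure S := by
    intro n
    have h2 : Real.exp n = Real.exp 1 ^ n := by rw [← Real.exp_nat_mul, mul_one]
    rw [h2, Complex.ofReal_pow]
    exact cl_pow h n
  obtain ⟨n, hn | hn⟩ := r.num.eq_nat_or_neg
  · rw [hn]
    exact_mod_cast key n
  · rw [hn]
    push_cast
    rw [Complex.exp_neg]
    refine cl_inv ?_
    have := key n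
    push_cast at this
    exact this

lemma cl_exp_one {S : Set ℂ} (q : ℕ) (h : ((Real.exp (1 / q) : ℝ) : ℂ) ∈ MM.closure S) (hq : 1 ≤ q) :
    ((Real.exp 1 : ℝ) : ℂ) ∈ MM.closure S := by
  have hq0 : (q : ℝ) ≠ 0 := by positivity
  have h1 : Real.exp 1 = Real.exp (1 / q) ^ q := by
    rw [← Real.exp_nat_mul]
    congr 1
    field_simp
  rw [h1, Complex.ofReal_pow]
  exact cl_pow h q

lemma cl_sqrt {S : Set ℂ} {x : ℝ} (hx0 : 0 ≤ x) (hx : (x : ℂ) ∈ MM.closure S) : ((√x : ℝ) : ℂ) ∈ MM.closure S := by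
  refine cl_of_pow (n := 2) (by norm_num) ?_
  rw [← Complex.ofReal_pow, Real.sq_sqrt hx0]
  exact hx

/-- the value of the E-function -/
lemma cl_EA {S : Set ℂ} (he : ((Real.exp 1 : ℝ) : ℂ) ∈ MM.closure S) (hpi : ((Real.pi : ℝ) : ℂ) ∈ MM.closure S)
    (x : ℚ) (hx : 0 < x) (hm : ((mil x : ℝ) : ℂ) ∈ MM.closure S) :
    ((EA (1 / 2) 1 x : ℝ) : ℂ) ∈ MM.closure S := by
  have hx' : (0 : ℝ) < x := by exact_mod_cast hx
  have h := mil_sqrt hx'
  have h1 : EA (1 / 2) 1 x = 2 - (√Real.pi * √(x : ℝ) - Real.exp (-x) * mil x) * (x : ℝ)⁻¹ := by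
    rw [h]
    field_simp
    ring
  rw [h1]
  have hxc : (((x : ℚ) : ℝ) : ℂ) ∈ MM.closure S := by
    have := cl_rat S x
    exact_mod_cast this
  have he' : ((Real.exp (-(x : ℝ)) : ℝ) : ℂ) ∈ MM.closure S := by
    have := cl_exp he (-x)
    push_cast at this ⊢
    exact this
  have h2 : ((2 : ℝ) : ℂ) ∈ MM.closure S := by
    have := cl_rat S 2
    exact_mod_cast this
  rw [Complex.ofReal_sub, Complex.ofReal_mul, Complex.ofReal_sub, Complex.ofReal_mul, Complex.ofReal_mul,
    Complex.ofReal_inv]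
  exact cl_sub h2 (cl_mul (cl_sub (cl_mul (cl_sqrt Real.pi_pos.le hpi) (cl_sqrt hx'.le hxc)) (cl_mul he' hm))
    (cl_inv hxc))

/-- the main bound -/
theorem rk_ge {S : Set ℂ} (he : ((Real.exp 1 : ℝ) : ℂ) ∈ MM.closure S)
    (hpi : ((Real.pi : ℝ) : ℂ) ∈ MM.closure S) (n : ℕ) (x : Fin n → ℚ) (hx : ∀ i, 0 < x i)
    (hinj : Function.Injective x) (hm : ∀ i, ((mil (x i) : ℝ) : ℂ) ∈ MM.closure S) :
    ((n + 1 : ℕ) : ℕ∞) ≤ rk S := by
  have h := EA_alg_Q
  let g : Option (Fin n) → Option PI := fun o => o.map fun i => ⟨(0, 1 / 2, x i), by norm_num, by norm_num, hx i⟩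
  have hg : Function.Injective g := by
    refine Option.map_injective ?_
    intro i j hij
    have h1 := congrArg (fun p : PI => p.1.2.2) hij
    exact hinj h1
  have h1 := h.comp g hg
  have h2 : AlgebraicIndependent ℚ (fun o : Option (Fin n) =>
      (((o.elim (Real.exp 1) (fun i => EA (1 / 2) 1 (x i)) : ℝ)) : ℂ)) := by
    have h3 : AlgebraicIndependent ℚ (fun o : Option (Fin n) =>
        (o.elim (Real.exp 1) (fun i => EA (1 / 2) 1 (x i)) : ℝ)) := by
      convert h1 using 1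
      funext o
      rcases o with _ | i
      · rfl
      · simp [g]
    exact (AlgHom.algebraicIndependent_iff (Complex.ofRealAm.restrictScalars ℚ)
      (by intro a b hab; exact Complex.ofReal_injective hab)).2 h3
  obtain ⟨y, hy⟩ : ∃ y : Option (Fin n) → ℂ, y = (fun o : Option (Fin n) =>
      (((o.elim (Real.exp 1) (fun i => EA (1 / 2) 1 (x i)) : ℝ)) : ℂ)) := ⟨_, rfl⟩
  rw [← hy] at h2
  have hind : MM.Indep (Set.range y) := by
    rw [AlgebraicIndependent.matroid_indep_iff]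
    exact h2.to_subtype_range
  have hcard : (Set.range y).encard = (n + 1 : ℕ) := by
    rw [← Set.image_univ, h2.injective.encard_image, Set.encard_univ, ENat.card_eq_coe_fintype_card,
      Fintype.card_option, Fintype.card_fin]
  rw [← hcard, ← hind.eRk_eq_encard]
  refine rk_le_of_subset_cl ?_
  rintro _ ⟨o, rfl⟩
  rw [hy]
  rcases o with _ | i
  · exact he
  · exact cl_EA he hpi (x i) (hx i) (hm i)

/-- the transfer of algebraicity -/
lemma cl_of_real {S : Set ℂ} (u v w : ℝ) (hu : (u : ℂ) ∈ S) (hv : (v : ℂ) ∈ S)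
    (h : IsAlgebraic (Algebra.adjoin ℤ ({u, v} : Set ℝ)) w) : (w : ℂ) ∈ MM.closure S := by
  rw [mem_cl]
  have hmem : ∀ y ∈ Algebra.adjoin ℤ ({u, v} : Set ℝ), ((y : ℝ) : ℂ) ∈ Algebra.adjoin ℚ S := by
    intro y hy
    induction hy using Algebra.adjoin_induction with
    | mem z hz =>
      rcases hz with rfl | hz
      · exact Algebra.subset_adjoin hu
      · rw [Set.mem_singleton_iff] at hz
        rw [hz]
        exact Algebra.subset_adjoin hv
    | algebraMap r =>
      have : (((algebraMap ℤ ℝ) r : ℝ) : ℂ) = algebraMap ℚ ℂ (r : ℚ) := by simp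
      rw [this]
      exact Subalgebra.algebraMap_mem _ _
    | add a b _ _ ha hb =>
      rw [Complex.ofReal_add]
      exact add_mem ha hb
    | mul a b _ _ ha hb =>
      rw [Complex.ofReal_mul]
      exact mul_mem ha hb
  let f : Algebra.adjoin ℤ ({u, v} : Set ℝ) →+* Algebra.adjoin ℚ S :=
    { toFun := fun y => ⟨((y : ℝ) : ℂ), hmem y y.2⟩
      map_one' := by ext; simp
      map_mul' := fun a b => by ext; simp
      map_zero' := by ext; simp
      map_add' := fun a b => by ext; simp }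
  have hf : Function.Injective f := by
    intro a b hab
    have := congrArg (fun z : Algebra.adjoin ℚ S => (z : ℂ)) hab
    exact Subtype.ext (Complex.ofReal_injective this)
  exact h.ringHom_of_comp_eq f Complex.ofRealHom hf (by ext y; rfl)

end Pool.Agent.L5helper14.PiF
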